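import Pool.Agent.Lib.MP_bcd198_co.IfP
import Pool.Agent.Lib.MP_bcd198_co.G.Main

/-!
# MP_bcd198_co: interface of Stream G (geometry of the triangle group, section 5)

These statements are proved by the stream (files `G/…`, namespace `MPbcd198.G`).  Other streams may
import this file.
-/

set_option autoImplicit false

namespace MPbcd198

open Equiv

/-- [5.0] the triangle group acts on itself as a map -/
theorem self_map {p q : ℕ} (hyp : Hyp p q) : IsMapHom (selfHom p q) :=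
  G.Main.self_map hyp

/-- [5.0] intermediate coverings of a map are maps -/
theorem coset_map {p q : ℕ} {X : Type} (ρ : Tri p q →* Perm X) (hρ : IsMapHom ρ) (x : X)
    (Γ : Subgroup (Tri p q)) (hΓ : ∀ g ∈ Γ, ρ g x = x) : IsMapHom (cosetHom Γ) :=
  G.Main.coset_map ρ hρ x Γ hΓ

/-- [5.6] polygons in the tiling graph: closed walks with distinct vertices -/
theorem polygon {p q : ℕ} (hyp : Hyp p q) (n : ℕ) (hn : 0 < n) (x : ℕ → Tri p q)
    (per : ∀ i, x (i + n) = x i)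
    (step : ∀ i, ∃ g ∈ vSub p q, x (i + 1) = g * gen p q 0 * x i)
    (dist : ∀ i < n, ∀ j < n, i ≠ j → ∀ g ∈ vSub p q, x j ≠ g * x i)
    (two : n = 2 → x 1 ≠ gen p q 0 * x 0 ∧ x 1 ≠ gen p q 2 * gen p q 0 * x 0) :
    p ≤ n ∧ (n = p → ∃ y : ℕ → Tri p q, (∀ i, y i = x i ∨ y i = gen p q 2 * x i) ∧
      ∀ i, y (i + 1) = gen p q 1 * gen p q 0 * y i) :=
  G.Main.polygon hyp n hn x per step dist two

/-- [5.6] a face is determined by its boundary -/
theorem face_unique {p q : ℕ} (hyp : Hyp p q) (x y : Tri p q)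
    (h : ∀ i : ℕ, ∃ g ∈ vSub p q, (gen p q 1 * gen p q 0) ^ i * y =
      g * ((gen p q 1 * gen p q 0) ^ i * x)) : x = y :=
  G.Main.face_unique hyp x y h

/-- [5.7] stabilisers are torsion free -/
theorem stab_torsionFree {p q : ℕ} (hyp : Hyp p q) {X : Type} (ρ : Tri p q →* Perm X)
    (hρ : IsMapHom ρ) (x : X) (g : Tri p q) (hg : g ≠ 1) (hx : ρ g x = x) :
    ∀ n : ℤ, n ≠ 0 → g ^ n ≠ 1 :=
  G.Main.stab_torsionFree hyp ρ hρ x g hg hx

/-- [5.8] linear isoperimetric inequality in cyclic quotients -/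
theorem isoperimetry {p q : ℕ} (hyp : Hyp p q) (γ : Tri p q) (hγ : ∀ n : ℤ, n ≠ 0 → γ ^ n ≠ 1)
    (hm : IsMapHom (cosetHom (Subgroup.zpowers γ)))
    (S : Finset (Tri p q ⧸ Subgroup.zpowers γ))
    (hS : FaceSet (cosetHom (Subgroup.zpowers γ)) S) :
    kap p q * S.card ≤ 3 * (bd (cosetHom (Subgroup.zpowers γ)) S).card :=
  G.Main.isoperimetry hyp γ hγ hm S hS

/-- [5.9] finiteness of the set of flags with a short loop in a cyclic quotient -/
theorem finite_short {p q : ℕ} (hyp : Hyp p q) (γ : Tri p q)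
    (hγ : ∀ n : ℤ, n ≠ 0 → γ ^ n ≠ 1) (hm : IsMapHom (cosetHom (Subgroup.zpowers γ))) (l : ℕ) :
    {y : Tri p q ⧸ Subgroup.zpowers γ |
      ∃ h ∈ ballT p q l, h ≠ 1 ∧ cosetHom (Subgroup.zpowers γ) h y = y}.Finite :=
  G.Main.finite_short hyp γ hγ hm l

/-- [5.10] finitely many roots -/
theorem finite_roots {p q : ℕ} (hyp : Hyp p q) (γ : Tri p q)
    (hγ : ∀ n : ℤ, n ≠ 0 → γ ^ n ≠ 1) (hm : IsMapHom (cosetHom (Subgroup.zpowers γ))) :
    {g : Tri p q | ∃ k : ℤ, g ^ k = γ}.Finite :=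
  G.Main.finite_roots hyp γ hγ hm

/-- [5.11] rank lemma -/
theorem rank_lemma {p q : ℕ} (hyp : Hyp p q) {X : Type} (ρ : Tri p q →* Perm X)
    (hρ : IsMapHom ρ) (S : Finset X) (hS : FaceSet ρ S) (x : X) (hx : x ∈ S)
    (hc : ∀ y ∈ S, SConn ρ S x y) :
    ((∃ g ∈ piSet ρ S x, g ≠ 1) → chiInt ρ S ≤ 0) ∧
      (¬ InCyclic (piSet ρ S x) → chiInt ρ S ≤ -1) :=
  G.Main.rank_lemma hyp ρ hρ S hS x hx hc

/-- [5.1 + 5.11] Euler characteristic of the closed complex -/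
theorem chiBar_le {p q : ℕ} (hyp : Hyp p q) {X : Type} (ρ : Tri p q →* Perm X)
    (hρ : IsMapHom ρ) (S : Finset X) (hS : FaceSet ρ S)
    (hc : ∀ y ∈ S, ∃ x ∈ S, SConn ρ S x y ∧ ∃ g ∈ piSet ρ S x, g ≠ 1) :
    chiBar ρ S ≤ 0 ∧ ((∃ x ∈ S, ¬ InCyclic (piSet ρ S x)) → chiBar ρ S ≤ -1) :=
  G.Main.chiBar_le hyp ρ hρ S hS hc

end MPbcd198
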