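import Mathlib

/-!
# MP_bcd198_co: random graphs locally like hyperbolic tilings.  Definitions.

Blueprint: team-store notes_MP_bcd198_co_blueprint.md.
-/

set_option autoImplicit false

namespace MPbcd198

open Equiv

/-! ## The triangle group and the graph of the tiling -/

/-- The relators of the Coxeter group `[p,q]` (generators `a = 0`, `b = 1`, `c = 2`). -/
def triRels (p q : ℕ) : Set (FreeGroup (Fin 3)) :=
  {FreeGroup.of 0 ^ 2, FreeGroup.of 1 ^ 2, FreeGroup.of 2 ^ 2,
    (FreeGroup.of 0 * FreeGroup.of 1) ^ p, (FreeGroup.of 1 * FreeGroup.of 2) ^ q,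
    (FreeGroup.of 0 * FreeGroup.of 2) ^ 2}

/-- The full triangle group `⟨a,b,c | a², b², c², (ab)^p, (bc)^q, (ac)²⟩`. -/
abbrev Tri (p q : ℕ) : Type := PresentedGroup (triRels p q)

/-- The generators: `gen 0 = a` changes the vertex, `gen 1 = b` the edge, `gen 2 = c` the face. -/
def gen (p q : ℕ) (i : Fin 3) : Tri p q := PresentedGroup.of i

/-- the subgroup `⟨b, c⟩` (stabiliser of a vertex) -/
def vSub (p q : ℕ) : Subgroup (Tri p q) := Subgroup.closure {gen p q 1, gen p q 2}

/-- The graph of the tiling of type `{p,q}`: the vertices are the cosets `g⟨b,c⟩` in the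
Coxeter group `[p,q]`, and `g⟨b,c⟩` is adjacent to `ga⟨b,c⟩`. -/
def tilingGraph (p q : ℕ) : SimpleGraph (Tri p q ⧸ vSub p q) where
  Adj x y := x ≠ y ∧ ∃ g : Tri p q, x = (g : Tri p q ⧸ vSub p q) ∧
    y = ((g * gen p q 0 : Tri p q) : Tri p q ⧸ vSub p q)
  symm := ⟨by
    rintro x y ⟨hne, g, hx, hy⟩
    refine ⟨hne.symm, g * gen p q 0, hy, ?_⟩
    have h2 : gen p q 0 * gen p q 0 = 1 := by
      have : (PresentedGroup.mk (triRels p q)) (FreeGroup.of 0 ^ 2) = 1 :=
        PresentedGroup.one_of_mem (by simp [triRels])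
      simpa [pow_two, gen, PresentedGroup.of] using this
    rw [mul_assoc, h2, mul_one, hx]⟩
  loopless := ⟨fun x h => h.1 rfl⟩

/-! ## Locally `F` graphs -/

/-- `Link_r(v, G)`: the subgraph induced on the vertices at distance at most `r` from `v`. -/
def link {V : Type} (r : ℕ) (G : SimpleGraph V) (v : V) :
    SimpleGraph {w : V // G.edist v w ≤ (r : ℕ∞)} :=
  G.comap Subtype.val

/-- the centre of the link -/
def linkCentre {V : Type} (r : ℕ) (G : SimpleGraph V) (v : V) :
    {w : V // G.edist v w ≤ (r : ℕ∞)} :=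
  ⟨v, by rw [SimpleGraph.edist_self]; exact zero_le⟩

/-- `G` is `r`-locally `F` (`u` is the fixed vertex of `F`). -/
def IsLocally {V W : Type} (r : ℕ) (F : SimpleGraph W) (u : W) (G : SimpleGraph V) : Prop :=
  ∀ v : V, ∃ φ : link r F u ≃g link r G v, φ (linkCentre r F u) = linkCentre r G v

/-- The labelled `r`-locally `F` graphs on `Fin n`. -/
abbrev LocGraph {W : Type} (r : ℕ) (F : SimpleGraph W) (u : W) (n : ℕ) : Type :=
  {G : SimpleGraph (Fin n) // IsLocally r F u G}

/-- isomorphism of graphs -/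
def locSetoid {W : Type} (r : ℕ) (F : SimpleGraph W) (u : W) (n : ℕ) :
    Setoid (LocGraph r F u n) where
  r G H := Nonempty (G.1 ≃g H.1)
  iseqv := ⟨fun _ => ⟨SimpleGraph.Iso.refl⟩, fun ⟨e⟩ => ⟨e.symm⟩, fun ⟨e⟩ ⟨f⟩ => ⟨e.trans f⟩⟩

/-- `S_n(F,r)`: the isomorphism classes of `r`-locally `F` graphs with `n` vertices. -/
abbrev UnlabelledS {W : Type} (r : ℕ) (F : SimpleGraph W) (u : W) (n : ℕ) : Type :=
  Quotient (locSetoid r F u n)

/-- a class is connected if one (equivalently every) member is -/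
def ClassConnected {W : Type} {r : ℕ} {F : SimpleGraph W} {u : W} {n : ℕ}
    (x : UnlabelledS r F u n) : Prop :=
  ∃ G : LocGraph r F u n, Quotient.mk (locSetoid r F u n) G = x ∧ G.1.Connected

/-- the probability that a uniformly random element of `S_n(F,r)` is connected -/
noncomputable def probConnected {W : Type} (r : ℕ) (F : SimpleGraph W) (u : W) (n : ℕ) : ℝ :=
  (Nat.card {x : UnlabelledS r F u n // ClassConnected x} : ℝ) /
    (Nat.card (UnlabelledS r F u n) : ℝ)

/-- `(F,r)` is connectivity-forcing. -/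
def ConnectivityForcing {W : Type} (r : ℕ) (F : SimpleGraph W) (u : W) : Prop :=
  ∀ ε : ℝ, 0 < ε → ∃ N : ℕ, ∀ n : ℕ, N ≤ n → Nonempty (UnlabelledS r F u n) →
    1 - ε ≤ probConnected r F u n

/-! ## Perfect matchings -/

/-- fixed point free involutions = perfect matchings -/
def IsPM {Ω : Type} (a : Perm Ω) : Prop := ∀ x, a x ≠ x ∧ a (a x) = x

/-- the union of the perfect matchings `a`, `b` is a disjoint union of `2r`-cycles -/
def Rel {Ω : Type} (r : ℕ) (a b : Perm Ω) : Prop :=
  ∀ x, Function.minimalPeriod (⇑(a * b)) x = r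

/-- number of perfect matchings of `2m` points -/
noncomputable def MNum (m : ℕ) : ℝ := ((2 * m).factorial : ℝ) / (2 ^ m * (m.factorial : ℝ))

/-- number of perfect matchings in relation `Rel r` with a given one (`r ∣ m`) -/
noncomputable def sNum (r m : ℕ) : ℝ :=
  (2 ^ m * (m.factorial : ℝ)) / ((2 * r : ℝ) ^ (m / r) * ((m / r).factorial : ℝ))

/-! ## Maps -/

/-- A map of type `{p,q}` on the set `Ω` of flags: fixed point free involutions `a, b, c`
such that all orbits of `ab`, `bc`, `ac` have exactly `p`, `q`, `2` elements. -/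
structure IsMap (p q : ℕ) {Ω : Type} (a b c : Perm Ω) : Prop where
  pa : IsPM a
  pb : IsPM b
  pc : IsPM c
  ab : Rel p a b
  bc : Rel q b c
  ac : Rel 2 a c

/-- triples of permutations -/
abbrev Trip (Ω : Type) : Type := Perm Ω × Perm Ω × Perm Ω

/-- the maps on `Ω` -/
abbrev MapOn (p q : ℕ) (Ω : Type) : Type := {M : Trip Ω // IsMap p q M.1 M.2.1 M.2.2}

/-- isomorphism of maps on the same set: conjugation -/
def mapSetoid (p q : ℕ) (Ω : Type) : Setoid (MapOn p q Ω) where
  r M M' := ∃ σ : Perm Ω, M'.1.1 = σ * M.1.1 * σ⁻¹ ∧ M'.1.2.1 = σ * M.1.2.1 * σ⁻¹ ∧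
    M'.1.2.2 = σ * M.1.2.2 * σ⁻¹
  iseqv := ⟨fun M => ⟨1, by simp⟩,
    fun {M M'} ⟨σ, h1, h2, h3⟩ => ⟨σ⁻¹, by rw [h1]; group, by rw [h2]; group, by rw [h3]; group⟩,
    fun {M M' M''} ⟨σ, h1, h2, h3⟩ ⟨τ, k1, k2, k3⟩ =>
      ⟨τ * σ, by rw [k1, h1]; group, by rw [k2, h2]; group, by rw [k3, h3]; group⟩⟩

/-- isomorphism classes of maps with `2m` flags -/
abbrev MapClass (p q m : ℕ) : Type := Quotient (mapSetoid p q (Fin (2 * m)))

/-- number of labelled maps with `2m` flags -/
noncomputable def NMap (p q m : ℕ) : ℕ := Nat.card (MapOn p q (Fin (2 * m)))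

/-- the group generated by the three involutions is transitive -/
def TripTrans {Ω : Type} (M : Trip Ω) : Prop :=
  ∀ x y : Ω, ∃ g ∈ Subgroup.closure ({M.1, M.2.1, M.2.2} : Set (Perm Ω)), g x = y

/-- the homomorphism `Tri p q → Perm Ω` given by a map -/
noncomputable def mapHom {p q : ℕ} {Ω : Type} {a b c : Perm Ω} (h : IsMap p q a b c) :
    Tri p q →* Perm Ω :=
  PresentedGroup.toGroup (f := ![a, b, c]) (by
    have hinv : ∀ {a : Perm Ω}, IsPM a → a ^ 2 = 1 := fun ha => by
      ext x; simpa [pow_two] using (ha x).2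
    have hrel : ∀ {a b : Perm Ω} {r : ℕ}, Rel r a b → (a * b) ^ r = 1 := fun {a b r} hr => by
      ext x
      have := Function.isPeriodicPt_minimalPeriod (⇑(a * b)) x
      rw [hr x] at this
      rw [← Equiv.Perm.iterate_eq_pow]
      exact this
    intro x hx
    simp only [triRels, Set.mem_insert_iff, Set.mem_singleton_iff] at hx
    rcases hx with rfl | rfl | rfl | rfl | rfl | rfl
    · simpa using hinv h.pa
    · simpa using hinv h.pb
    · simpa using hinv h.pc
    · simpa using hrel h.ab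
    · simpa using hrel h.bc
    · simpa using hrel h.ac)

/-- `ρ` (an action of the triangle group) is a map -/
def IsMapHom {p q : ℕ} {X : Type} (ρ : Tri p q →* Perm X) : Prop :=
  IsMap p q (ρ (gen p q 0)) (ρ (gen p q 1)) (ρ (gen p q 2))

/-- products of at most `l` generators -/
def ballT (p q l : ℕ) : Set (Tri p q) :=
  {g | ∃ w : List (Fin 3), w.length ≤ l ∧ (w.map (gen p q)).prod = g}

/-- no non trivial element of length at most `l` has a fixed flag -/
def NoShort {p q : ℕ} {X : Type} (ρ : Tri p q →* Perm X) (l : ℕ) : Prop :=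
  ∀ g ∈ ballT p q l, g ≠ 1 → ∀ x, ρ g x ≠ x

end MPbcd198
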