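import Pool.Agent.Lib.MP_bcd198_co.T.Main

/-!
# MP_bcd198_co: interface of Stream T (the tree case `2r+1 < p`; known theorem of the literature,
included so that the final theorem covers every `r`)

`F = tilingGraph p q` has no cycle of length `< p` (polygon lemma [5.6]), so for `2r+1 < p` a graph
is `r`-locally `F` iff it is `q`-regular without cycles of length `≤ 2r+1`.
-/

set_option autoImplicit false

namespace MPbcd198

/-- tree case -/
theorem connectivityForcing_tree {p q : ℕ} (hyp : Hyp p q) (r : ℕ) (h0 : 1 ≤ r)
    (hr : 2 * r + 1 < p) : ConnectivityForcing r (tilingGraph p q) (baseV p q) :=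
  T.connectivityForcing_tree hyp r h0 hr

end MPbcd198
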