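import Pool.Agent.Lib.MP_bcd198_co.Iface
import Pool.Agent.Lib.MP_bcd198_co.IfT

/-!
# MP_bcd198_co: final assembly
-/

set_option autoImplicit false

namespace MPbcd198

open Equiv

theorem connectivityForcing_tiling {p q : ℕ} (hyp : Hyp p q) (r : ℕ) (hr : p ≤ 2 * r + 1) :
    ConnectivityForcing r (tilingGraph p q) (baseV p q) := by
  classical
  intro ε hε
  obtain ⟨l, hl⟩ := maps_to_graphs hyp r hr
  obtain ⟨δ, hδ, m₁, hM⟩ := moments_main hyp l
  obtain ⟨m₂, hU⟩ := unlab_main hyp (NMap_asymp hyp) (ε * δ) (by positivity)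
  refine ⟨m₁ + m₂ + 1, fun n hn hne => ?_⟩
  have hn0 : 0 < n := by omega
  have hq : 3 ≤ q := hyp.hq
  have hqn : n ≤ q * n := by nlinarith
  have hpos := nonempty_maps hyp r hr n hn0 hne
  have hM' := hM (q * n) (by omega)
  have hU' := hU (q * n) (by omega)
  have h1 := graphs_to_maps hyp r hr n hn0
  have h2 := hl n hn0
  have : Finite (UnlabelledS r (tilingGraph p q) (baseV p q) n) := Quotient.finite _
  set A : ℝ := (Nat.card (UnlabelledS r (tilingGraph p q) (baseV p q) n) : ℝ) with hA
  set Dn : ℝ := (Nat.card {x : UnlabelledS r (tilingGraph p q) (baseV p q) n //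
    ¬ ClassConnected x} : ℝ) with hDn
  set Cn : ℝ := (Nat.card {x : UnlabelledS r (tilingGraph p q) (baseV p q) n //
    ClassConnected x} : ℝ) with hCn
  have hsum : Cn + Dn = A := by
    rw [hA, hDn, hCn, ← Nat.cast_add]
    congr 1
    rw [← Nat.card_sum]
    exact Nat.card_congr (Equiv.sumCompl _)
  have hApos : 0 < A := by
    rw [hA]
    exact_mod_cast Nat.card_pos
  set t : ℝ := (NMap p q (q * n) : ℝ) / ((2 * (q * n)).factorial : ℝ) with ht
  have hfac : (0 : ℝ) < ((2 * (q * n)).factorial : ℝ) := by positivity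
  -- number of classes without short loops
  have h3 : δ * t ≤ (Nat.card {y : MapClass p q (q * n) // ∃ M : MapOn p q (Fin (2 * (q * n))),
        Quotient.mk (mapSetoid p q _) M = y ∧ NoShort (mapHom M.2) l} : ℝ) := by
    rw [ht, ← mul_div_assoc, div_le_iff₀ hfac]
    refine hM'.trans ?_
    rw [← Nat.cast_mul, Nat.cast_le]
    have : Finite (MapOn p q (Fin (2 * (q * n)))) := Subtype.finite
    have : Finite (MapClass p q (q * n)) := Quotient.finite _
    -- each class has at most (2m)! members
    let Y := {y : MapClass p q (q * n) // ∃ M : MapOn p q (Fin (2 * (q * n))),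
        Quotient.mk (mapSetoid p q _) M = y ∧ NoShort (mapHom M.2) l}
    let f : {M : MapOn p q (Fin (2 * (q * n))) // NoShort (mapHom M.2) l} →
        Y × Perm (Fin (2 * (q * n))) := fun M =>
      let y : Y := ⟨Quotient.mk (mapSetoid p q _) M.1, M.1, rfl, M.2⟩
      (y, (Quotient.exact ((Quotient.out_eq y.1).trans rfl :
        Quotient.mk (mapSetoid p q _) y.1.out = Quotient.mk (mapSetoid p q _) M.1)).choose)
    have hf : Function.Injective f := by
      intro M M' h
      have hy : Quotient.mk (mapSetoid p q _) M.1 = Quotient.mk (mapSetoid p q _) M'.1 := by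
        have := congrArg (fun z => z.1.1) h
        exact this
      have e1 := (Quotient.exact ((Quotient.out_eq (Quotient.mk (mapSetoid p q _) M.1)).trans rfl :
        Quotient.mk (mapSetoid p q _) (Quotient.mk (mapSetoid p q _) M.1).out =
          Quotient.mk (mapSetoid p q _) M.1)).choose_spec
      have e2 := (Quotient.exact ((Quotient.out_eq (Quotient.mk (mapSetoid p q _) M'.1)).trans rfl :
        Quotient.mk (mapSetoid p q _) (Quotient.mk (mapSetoid p q _) M'.1).out =
          Quotient.mk (mapSetoid p q _) M'.1)).choose_spec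
      have hσ : (f M).2 = (f M').2 := by rw [h]
      simp only [f] at hσ
      rw [← hσ, ← hy] at e2
      apply Subtype.ext
      apply Subtype.ext
      refine Prod.ext ?_ (Prod.ext ?_ ?_)
      · exact e1.1.trans e2.1.symm
      · exact e1.2.1.trans e2.2.1.symm
      · exact e1.2.2.trans e2.2.2.symm
    have hc := Nat.card_le_card_of_injective f hf
    rw [Nat.card_prod] at hc
    have : Nat.card (Perm (Fin (2 * (q * n)))) = (2 * (q * n)).factorial := by
      rw [Nat.card_eq_fintype_card, Fintype.card_perm, Fintype.card_fin]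
    rwa [this] at hc
  have h4 : δ * t ≤ A := h3.trans (Nat.cast_le.mpr h2)
  have h5 : Dn ≤ ε * A := by
    calc Dn ≤ _ := Nat.cast_le.mpr h1
      _ ≤ ε * δ * t := hU'
      _ = ε * (δ * t) := by ring
      _ ≤ ε * A := by gcongr
  unfold probConnected
  rw [le_div_iff₀ hApos]
  have : Cn = A - Dn := by linarith
  rw [← hCn, this]
  nlinarith

/-- Q1 of the problem, for every `r ≥ 1`. -/
theorem connectivityForcing_all {p q : ℕ} (hyp : Hyp p q) (r : ℕ) (h0 : 1 ≤ r) :
    ConnectivityForcing r (tilingGraph p q) (baseV p q) := by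
  rcases Nat.lt_or_ge (2 * r + 1) p with h | h
  · exact connectivityForcing_tree hyp r h0 h
  · exact connectivityForcing_tiling hyp r h

end MPbcd198
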