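import Pool.Agent.Lib.MP_bcd198_co.Defs

/-!
# MP_bcd198_co: the regular tiling `{p,q}` in the hyperboloid model of the hyperbolic plane

`ℝ³` with the Minkowski form `mink x y = x₁y₁ + x₂y₂ - x₀y₀`; the hyperbolic plane is
`HypPlane = {x | mink x x = -1, 0 < x₀}`; its lines are the sets `{x | mink n x = 0}`, `mink n n = 1`,
and `mrefl n` is the reflection in this line.  `side p q 0`, `side p q 1`, `side p q 2` are the unit
normals of the sides of a triangle with angles `π/p` (between the sides 0 and 1), `π/q` (between
the sides 1 and 2) and `π/2` (between the sides 0 and 2); the vertex with the angle `π/q` is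
`v0 = (1,0,0)`.  The images of this triangle under the group generated by the three reflections are
the triangles of the barycentric subdivision of the regular tiling by `p`-gons, `q` at every
vertex; `v0` is a vertex of the tiling, the point `{0,2}` the midpoint of an edge and the point
`{0,1}` the centre of a tile.  So the vertices of the tiling are the images of `v0`, and its edges
are the images of the edge from `v0` to its mirror image in the side 0.
-/

set_option autoImplicit false

namespace MPbcd198

open Real

/-- the Minkowski form -/
def mink (x y : Fin 3 → ℝ) : ℝ := x 1 * y 1 + x 2 * y 2 - x 0 * y 0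

/-- the hyperbolic plane (hyperboloid model) -/
def HypPlane : Set (Fin 3 → ℝ) := {x | mink x x = -1 ∧ 0 < x 0}

/-- the reflection in the plane orthogonal to the unit vector `n` -/
def mrefl (n x : Fin 3 → ℝ) : Fin 3 → ℝ := x - (2 * mink n x) • n

/-- the unit normals of the sides of the fundamental triangle -/
noncomputable def side (p q : ℕ) : Fin 3 → Fin 3 → ℝ :=
  ![![-√((cos (π / p) / sin (π / q)) ^ 2 - 1), -(cos (π / p) / sin (π / q)), 0],
    ![0, sin (π / q), -cos (π / q)],
    ![0, 0, 1]]

/-- the base vertex -/
def v0 : Fin 3 → ℝ := ![1, 0, 0]

/-- the composition of the reflections in the sides with the indices in the list `w` -/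
noncomputable def wact (p q : ℕ) (w : List (Fin 3)) (x : Fin 3 → ℝ) : Fin 3 → ℝ :=
  w.foldr (fun i y => mrefl (side p q i) y) x

/-- the vertices of the tiling: the orbit of `v0` under the reflection group -/
abbrev HVertex (p q : ℕ) : Type := {x : Fin 3 → ℝ // ∃ w : List (Fin 3), x = wact p q w v0}

/-- The graph of the regular tiling `{p,q}` of the hyperbolic plane: the vertices are the vertices
of the tiling, and the edges are the pairs of end points of the images of the base edge (whose
end points are `v0` and its mirror image in the side `0`). -/
def hypTiling (p q : ℕ) : SimpleGraph (HVertex p q) where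
  Adj x y := x ≠ y ∧ ∃ w : List (Fin 3),
    (x.1 = wact p q w v0 ∧ y.1 = wact p q w (mrefl (side p q 0) v0)) ∨
      (y.1 = wact p q w v0 ∧ x.1 = wact p q w (mrefl (side p q 0) v0))
  symm := ⟨fun _ _ ⟨hne, w, hw⟩ => ⟨hne.symm, w, hw.symm⟩⟩
  loopless := ⟨fun _ h => h.1 rfl⟩

/-- the base vertex -/
def hypBase (p q : ℕ) : HVertex p q := ⟨v0, [], rfl⟩

end MPbcd198
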