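import Pool.Agent.Lib.MP_bcd198_co.C.Main

/-!
# MP_bcd198_co: interface of Stream C (characters of the symmetric group, section 4 and 3.2)

These statements are proved by the stream (files `C/…`, namespace `MPbcd198.C`).  Other streams may
import this file.
-/

set_option autoImplicit false

namespace MPbcd198

open Equiv

/-- elementary criterion for irreducibility -/
theorem isIrreducible_of {G V : Type} [Group G] [AddCommGroup V] [Module ℂ V]
    (ρ : Representation ℂ G V) [Nontrivial V]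
    (h : ∀ W : Submodule ℂ V, (∀ g, ∀ w ∈ W, ρ g w ∈ W) → W = ⊥ ∨ W = ⊤) :
    Representation.IsIrreducible ρ :=
  C.isIrreducible_of ρ h

/-- [3.2 (iii), (iv)] a positive definite class function `ω` on `S_m` with `ω(1) = 1` and
`E |ω|² ≤ δ²` is small on the permutations all of whose cycles have length `r` -/
theorem posdef_bound (r : ℕ) (hr : 2 ≤ r) (η : ℝ) (hη : 0 < η) : ∃ C : ℝ, ∀ m : ℕ, r ∣ m →
    ∀ ω : Perm (Fin m) → ℝ,
      (∀ c : Perm (Fin m) → ℝ, 0 ≤ ∑ s, ∑ t, c s * c t * ω (s⁻¹ * t)) →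
      (∀ s t, ω (t * s * t⁻¹) = ω s) → ω 1 = 1 →
      ∀ δ : ℝ, 0 < δ → δ ≤ 1 → (∑ s, ω s ^ 2) / (m.factorial : ℝ) ≤ δ ^ 2 →
      ∀ s : Perm (Fin m), (∀ x, Function.minimalPeriod (⇑s) x = r) →
        |ω s| ≤ C * ((m : ℝ) + 1) ^ C * δ ^ (1 - 1 / (r : ℝ) - η) :=
  C.posdef_bound r hr η hη

/-- [4.4] sum over a set of irreducible characters of one symmetric group -/
theorem chars_sum (s : ℝ) (hs : 0 < s) : ∃ C : ℝ,
    ∀ (ι : Type) [Fintype ι] [DecidableEq ι] (S : Finset (Perm ι → ℂ)),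
      (∀ χ ∈ S, ∃ (V : Type) (_ : AddCommGroup V) (_ : Module ℂ V) (_ : FiniteDimensional ℂ V)
        (ρ : Representation ℂ (Perm ι) V), Representation.IsIrreducible ρ ∧
          ∀ g, χ g = ρ.character g) →
      ∑ χ ∈ S, (χ 1).re ^ (-s) ≤ C :=
  C.chars_sum s hs

/-- [4.5, 4.2] an irreducible representation of small degree contains a vector on which the
pointwise stabiliser of a small set acts trivially or by the sign -/
theorem rep_small (K : ℕ) : ∃ K₁ n₀ : ℕ,
    ∀ (ι : Type) [Fintype ι] [DecidableEq ι], n₀ ≤ Fintype.card ι →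
      ∀ (V : Type) [AddCommGroup V] [Module ℂ V] [FiniteDimensional ℂ V]
        (ρ : Representation ℂ (Perm ι) V), Representation.IsIrreducible ρ →
        (Module.finrank ℂ V : ℝ) < (Fintype.card ι : ℝ) ^ K →
        ∃ W : Finset ι, W.card ≤ K₁ ∧
          ((∃ v : V, v ≠ 0 ∧ ∀ σ : Perm ι, (∀ x ∈ W, σ x = x) → ρ σ v = v) ∨
            ∃ v : V, v ≠ 0 ∧ ∀ σ : Perm ι, (∀ x ∈ W, σ x = x) →
              ρ σ v = ((Perm.sign σ : ℤ) : ℂ) • v) :=
  C.rep_small K

end MPbcd198
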