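import Pool.Agent.Lib.MP_bcd198_co.A.Main

/-!
# MP_bcd198_co: interface of Stream A (unlabelled counting, section 9)

Proved in the files `A/…` (namespace `MPbcd198.A`).
-/

set_option autoImplicit false

namespace MPbcd198

open Equiv

/-- [9.3] -/
theorem unlab_main {p q : ℕ} (hyp : Hyp p q)
    (hN : ∀ ε : ℝ, 0 < ε → ∃ m₀ : ℕ, ∀ m : ℕ, m₀ ≤ m → p ∣ m → q ∣ m → 2 ∣ m →
      |(NMap p q m : ℝ) - sNum p m * sNum q m * sNum 2 m| ≤
        ε * (sNum p m * sNum q m * sNum 2 m)) :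
    ∀ ε : ℝ, 0 < ε → ∃ m₀ : ℕ, ∀ m : ℕ, m₀ ≤ m →
      (Nat.card {x : MapClass p q m // ∃ M : MapOn p q (Fin (2 * m)),
        Quotient.mk (mapSetoid p q _) M = x ∧ ¬ TripTrans M.1} : ℝ) ≤
          ε * ((NMap p q m : ℝ) / ((2 * m).factorial : ℝ)) :=
  A.main hyp hN

end MPbcd198
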