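import Pool.Agent.Lib.MP_bcd198_co.D.Main

/-!
# MP_bcd198_co: interface of Stream D (graphs and maps, section 1)

Proved in `D/Main.lean`.
-/

set_option autoImplicit false

namespace MPbcd198

open Equiv

/-- [1.1] -/
theorem graphs_to_maps {p q : ℕ} (hyp : Hyp p q) (r : ℕ) (hr : p ≤ 2 * r + 1) (n : ℕ)
    (hn : 0 < n) :
    Nat.card {x : UnlabelledS r (tilingGraph p q) (baseV p q) n // ¬ ClassConnected x} ≤
      Nat.card {y : MapClass p q (q * n) // ∃ M : MapOn p q (Fin (2 * (q * n))),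
        Quotient.mk (mapSetoid p q _) M = y ∧ ¬ TripTrans M.1} :=
  D.graphs_to_maps hyp r hr n hn

/-- [1.2] -/
theorem maps_to_graphs {p q : ℕ} (hyp : Hyp p q) (r : ℕ) (hr : p ≤ 2 * r + 1) : ∃ l : ℕ,
    ∀ n : ℕ, 0 < n →
      Nat.card {y : MapClass p q (q * n) // ∃ M : MapOn p q (Fin (2 * (q * n))),
        Quotient.mk (mapSetoid p q _) M = y ∧ NoShort (mapHom M.2) l} ≤
      Nat.card (UnlabelledS r (tilingGraph p q) (baseV p q) n) :=
  D.maps_to_graphs hyp r hr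

/-- [1.3] -/
theorem nonempty_maps {p q : ℕ} (hyp : Hyp p q) (r : ℕ) (hr : p ≤ 2 * r + 1) (n : ℕ)
    (hn : 0 < n) (h : Nonempty (UnlabelledS r (tilingGraph p q) (baseV p q) n)) :
    0 < NMap p q (q * n) :=
  D.nonempty_maps hyp r hr n hn h

end MPbcd198
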