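import Pool.Agent.Lib.MP_bcd198_co.L.Main

/-!
# MP_bcd198_co: interface of Stream L (Theorem Q, section 2)

Proved in the files `L/…` (namespace `MPbcd198.L`).
-/

set_option autoImplicit false

namespace MPbcd198

open Equiv

/-- Theorem Q, weak hull condition -/
theorem thmQ_weak {p q : ℕ} (hyp : Hyp p q) {P₁ P₂ : Type} [Fintype P₁] [Fintype P₂]
    [DecidableEq P₁] [DecidableEq P₂] (a : Perm P₁) (b : Perm (P₁ ⊕ P₂)) (c : Perm P₂)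
    (ha : IsPM a) (hb : IsPM b) (hc : IsPM c)
    (hull : ∀ U : Finset (P₁ ⊕ P₂), PClosed a b U → eP p c U ≤ 0) :
    ∃ C : ℝ, ∀ z : ℕ, p ∣ Fintype.card (P₁ ⊕ P₂) / 2 + z → q ∣ z →
      2 ∣ Fintype.card P₂ / 2 + z → Qratio p q a b c z ≤ C :=
  L.thmQ_weak hyp a b c ha hb hc hull

/-- Theorem Q, strict hull condition -/
theorem thmQ_strict {p q : ℕ} (hyp : Hyp p q) {P₁ P₂ : Type} [Fintype P₁] [Fintype P₂]
    [DecidableEq P₁] [DecidableEq P₂] (a : Perm P₁) (b : Perm (P₁ ⊕ P₂)) (c : Perm P₂)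
    (ha : IsPM a) (hb : IsPM b) (hc : IsPM c)
    (hull : ∀ U : Finset (P₁ ⊕ P₂), U.Nonempty → PClosed a b U → eP p c U < 0) :
    ∀ ε : ℝ, 0 < ε → ∃ z₀ : ℕ, ∀ z : ℕ, z₀ ≤ z → p ∣ Fintype.card (P₁ ⊕ P₂) / 2 + z → q ∣ z →
      2 ∣ Fintype.card P₂ / 2 + z → |Qratio p q a b c z - 1| ≤ ε :=
  L.thmQ_strict hyp a b c ha hb hc hull

end MPbcd198
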