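import Pool.Agent.Lib.MP_bcd198_co.M.Main

/-!
# MP_bcd198_co: interface of Stream M (moments and clusters, section 8)

Proved in the files `M/…` (namespace `MPbcd198.M`).
-/

set_option autoImplicit false

namespace MPbcd198

open Equiv

/-- [8.3] a positive proportion of the maps has no short loops -/
theorem moments_main {p q : ℕ} (hyp : Hyp p q) (l : ℕ) : ∃ δ : ℝ, 0 < δ ∧ ∃ m₀ : ℕ,
    ∀ m : ℕ, m₀ ≤ m →
      δ * (NMap p q m : ℝ) ≤
        (Nat.card {M : MapOn p q (Fin (2 * m)) // NoShort (mapHom M.2) l} : ℝ) :=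
  M.moments_main hyp l

end MPbcd198
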