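import Pool.Agent.Lib.MP_bcd198_co.P.Main

/-!
# MP_bcd198_co: interface of Stream P (planted types, section 7)

Proved in the files `P/…` (namespace `MPbcd198.P`) from Theorem Q (`IfL.lean`).
-/

set_option autoImplicit false

namespace MPbcd198

open Equiv

/-- number of labelled maps: divisibility -/
theorem NMap_zero (p q m : ℕ) (hm : 0 < m) (h : ¬ (p ∣ m ∧ q ∣ m ∧ 2 ∣ m)) : NMap p q m = 0 :=
  P.NMap_zero p q m hm h

/-- number of labelled maps: asymptotics (Theorem Q for the empty data) -/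
theorem NMap_asymp {p q : ℕ} (hyp : Hyp p q) : ∀ ε : ℝ, 0 < ε → ∃ m₀ : ℕ, ∀ m : ℕ, m₀ ≤ m →
    p ∣ m → q ∣ m → 2 ∣ m →
      |(NMap p q m : ℝ) - sNum p m * sNum q m * sNum 2 m| ≤
        ε * (sNum p m * sNum q m * sNum 2 m) :=
  P.NMap_asymp hyp

/-- number of pairs (map, planted copy of `τ`) -/
noncomputable def embCount {p q N : ℕ} (τ : PType p q (Fin N)) (m : ℕ) : ℕ :=
  Nat.card {x : MapOn p q (Fin (2 * m)) × (Fin N ↪ Fin (2 * m)) //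
    (∀ y, x.2 (τ.b y) = x.1.1.2.1 (x.2 y)) ∧ (∀ y, x.2 (τ.c y) = x.1.1.2.2 (x.2 y)) ∧
      ∀ y ∈ τ.S, x.2 (τ.a y) = x.1.1.1 (x.2 y)}

/-- [7.3] Theorem P, weak hull condition -/
theorem thmP_weak {p q : ℕ} (hyp : Hyp p q) {N : ℕ} (τ : PType p q (Fin N)) (h : τ.HullWeak) :
    ∃ C : ℝ, ∀ m : ℕ, 0 < m →
      (embCount τ m : ℝ) ≤ C * (2 * m : ℝ) ^ τ.chi * (NMap p q m : ℝ) :=
  P.thmP_weak hyp τ h

/-- [7.3] Theorem P, strict hull condition -/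
theorem thmP_strict {p q : ℕ} (hyp : Hyp p q) {N : ℕ} (τ : PType p q (Fin N))
    (h : τ.HullStrict) :
    ∀ ε : ℝ, 0 < ε → ∃ m₀ : ℕ, ∀ m : ℕ, m₀ ≤ m →
      |(embCount τ m : ℝ) - (2 * m : ℝ) ^ τ.chi * (NMap p q m : ℝ)| ≤
        ε * ((2 * m : ℝ) ^ τ.chi * (NMap p q m : ℝ)) :=
  P.thmP_strict hyp τ h

end MPbcd198
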