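import Pool.Agent.Lib.MP_bcd198_co.U.Main

/-!
# MP_bcd198_co: interface of Stream U (hulls, section 6)

Proved in the files `U/…` (namespace `MPbcd198.U`).
-/

set_option autoImplicit false

namespace MPbcd198

open Equiv

/-- [6.2] -/
theorem hull_finite {p q : ℕ} (hyp : Hyp p q) (K : ℕ) : ∃ C₀ : ℕ,
    ∀ (X : Type) [Finite X] (ρ : Tri p q →* Perm X), IsMapHom ρ → ∀ S₀ : Finset X,
      FaceSet ρ S₀ → S₀.card ≤ K → ∃ S : Finset X, FaceSet ρ S ∧ S₀ ⊆ S ∧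
        Nat.card (hat ρ S) ≤ C₀ ∧ (∀ U : Finset X, PUClosed ρ S U → eU ρ S U ≤ 0) ∧
        ∀ x ∈ S, ∃ y ∈ S₀, SConn ρ S y x :=
  U.hull_finite hyp K

/-- [6.3] -/
theorem hull_cyclic {p q : ℕ} (hyp : Hyp p q) (γ : Tri p q) (hγ : ∀ n : ℤ, n ≠ 0 → γ ^ n ≠ 1)
    (hm : IsMapHom (cosetHom (Subgroup.zpowers γ)))
    (S₀ : Finset (Tri p q ⧸ Subgroup.zpowers γ))
    (h₀ : FaceSet (cosetHom (Subgroup.zpowers γ)) S₀) :
    ∃ S : Finset (Tri p q ⧸ Subgroup.zpowers γ), FaceSet (cosetHom (Subgroup.zpowers γ)) S ∧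
      S₀ ⊆ S ∧ (∀ U : Finset (Tri p q ⧸ Subgroup.zpowers γ), U.Nonempty →
        PUClosed (cosetHom (Subgroup.zpowers γ)) S U →
          eU (cosetHom (Subgroup.zpowers γ)) S U < 0) ∧
      ∀ x ∈ S, ∃ y ∈ S₀, SConn (cosetHom (Subgroup.zpowers γ)) S y x :=
  U.hull_cyclic hyp γ hγ hm S₀ h₀

end MPbcd198
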