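import Pool.Agent.Lib.MP_bcd198_co.IfH
import Pool.Agent.Lib.MP_bcd198_co.IfL
import Pool.Agent.Lib.MP_bcd198_co.IfP
import Pool.Agent.Lib.MP_bcd198_co.IfG
import Pool.Agent.Lib.MP_bcd198_co.IfU
import Pool.Agent.Lib.MP_bcd198_co.IfM
import Pool.Agent.Lib.MP_bcd198_co.IfA
import Pool.Agent.Lib.MP_bcd198_co.IfD
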