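import Pool.Agent.Lib.MP_bcd198_co.Types

/-!
# MP_bcd198_co: functions on perfect matchings (definitions only)
-/

set_option autoImplicit false

namespace MPbcd198

open Equiv

/-- the type of perfect matchings of `Ω` -/
abbrev PMT (Ω : Type) : Type := {a : Perm Ω // IsPM a}

/-- complex functions on the perfect matchings -/
abbrev FPM (Ω : Type) : Type := PMT Ω → ℂ

section

variable {Ω : Type}

/-- conjugation of a perfect matching -/
def conjPM (σ : Perm Ω) : PMT Ω ≃ PMT Ω where
  toFun a := ⟨σ * a.1 * σ⁻¹, fun x => by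
    have h := a.2 (σ⁻¹ x)
    constructor
    · intro h'
      apply h.1
      have := congrArg (fun y => σ⁻¹ y) h'
      simpa using this
    · have h2 := h.2
      have h3 : ∀ y, σ⁻¹ (σ y) = y := fun y => by simp
      simp only [Perm.mul_apply]
      rw [h3, h2]
      simp⟩
  invFun a := ⟨σ⁻¹ * a.1 * σ, fun x => by
    have h := a.2 (σ x)
    constructor
    · intro h'
      apply h.1
      have := congrArg (fun y => σ y) h'
      simpa using this
    · simp [h.2]⟩
  left_inv a := by
    apply Subtype.ext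
    simp only
    group
  right_inv a := by
    apply Subtype.ext
    simp only
    group

/-- the action of permutations on functions: `(σ f)(a) = f(σ⁻¹ a σ)` -/
noncomputable def actF (σ : Perm Ω) : FPM Ω →ₗ[ℂ] FPM Ω where
  toFun f := fun a => f ((conjPM σ).symm a)
  map_add' _ _ := rfl
  map_smul' _ _ := rfl

/-- invariant subspaces -/
def Inv (V : Submodule ℂ (FPM Ω)) : Prop := ∀ σ : Perm Ω, ∀ f ∈ V, actF σ f ∈ V

/-- the irreducible invariant subspaces -/
def Irr (Ω : Type) : Set (Submodule ℂ (FPM Ω)) :=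
  {V | V ≠ ⊥ ∧ Inv V ∧ ∀ W : Submodule ℂ (FPM Ω), W ≤ V → Inv W → W = ⊥ ∨ W = V}

/-- equivariant operators -/
def Equivar {Ω' : Type} (T : FPM Ω →ₗ[ℂ] FPM Ω') (j : Perm Ω → Perm Ω') : Prop :=
  ∀ σ f, T (actF σ f) = actF (j σ) (T f)

/-- partial matchings are involutions; `f_β` -/
noncomputable def fB (β : Perm Ω) : FPM Ω :=
  open Classical in fun a => if ∀ x, β x ≠ x → a.1 x = β x then 1 else 0

/-- involution (a partial matching) -/
def IsInv (β : Perm Ω) : Prop := ∀ x, β (β x) = x

end

section Fin

variable {Ω : Type} [Fintype Ω] [DecidableEq Ω]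

open Classical in
/-- the Markov operator `K_r` -/
noncomputable def KOp (Ω : Type) [Fintype Ω] [DecidableEq Ω] (r : ℕ) : FPM Ω →ₗ[ℂ] FPM Ω where
  toFun f := fun a => (((Finset.univ.filter fun b : PMT Ω => Rel r a.1 b.1).card : ℕ) : ℂ)⁻¹ *
    ∑ b ∈ Finset.univ.filter fun b : PMT Ω => Rel r a.1 b.1, f b
  map_add' f g := by
    funext a
    simp only [Pi.add_apply, Finset.sum_add_distrib, mul_add]
  map_smul' c f := by
    funext a
    simp only [Pi.smul_apply, smul_eq_mul, RingHom.id_apply, ← Finset.mul_sum]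
    ring

/-- the degree filtration: span of the `f_β` with at most `j` edges -/
noncomputable def Fil (Ω : Type) [Fintype Ω] [DecidableEq Ω] (j : ℕ) : Submodule ℂ (FPM Ω) :=
  Submodule.span ℂ {f | ∃ β : Perm Ω, IsInv β ∧ β.support.card ≤ 2 * j ∧ f = fB β}

/-- the hermitian scalar product of two functions -/
noncomputable def ipF (f g : FPM Ω) : ℂ :=
  open Classical in ∑ a : PMT Ω, (starRingEnd ℂ) (f a) * g a

end Fin

end MPbcd198
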