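import Pool.Agent.Lib.MP_bcd198_co.Defs

/-!
# MP_bcd198_co: planted data, planted types, face sets (definitions only)
-/

set_option autoImplicit false

namespace MPbcd198

open Equiv

/-- the standing hypotheses -/
structure Hyp (p q : ℕ) : Prop where
  hp : 3 ≤ p
  hq : 3 ≤ q
  hk : 4 < (p - 2) * (q - 2)

/-- `κ = 1/2 - 1/p - 1/q` -/
noncomputable def kap (p q : ℕ) : ℝ := 1 / 2 - 1 / p - 1 / q

/-! ## Section 2 of the blueprint: the data of Theorem Q -/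

section Plant

variable {P₁ P₂ Z : Type}

/-- `a_d ⊔ a'` on `P₁ ⊕ (P₂ ⊕ Z)` -/
def combA (a : Perm P₁) (a' : Perm (P₂ ⊕ Z)) : Perm (P₁ ⊕ (P₂ ⊕ Z)) := Equiv.sumCongr a a'

/-- `b_P ⊔ b''` on `P₁ ⊕ (P₂ ⊕ Z)` -/
def combB (b : Perm (P₁ ⊕ P₂)) (b'' : Perm Z) : Perm (P₁ ⊕ (P₂ ⊕ Z)) :=
  (Equiv.sumAssoc P₁ P₂ Z).permCongr (Equiv.sumCongr b b'')

/-- `Ncomp(Z)` -/
noncomputable def Ncomp (p q : ℕ) (a : Perm P₁) (b : Perm (P₁ ⊕ P₂)) (c : Perm P₂)
    (Z : Type) : ℕ :=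
  Nat.card {t : Perm (P₂ ⊕ Z) × Perm Z × Perm Z //
    IsPM t.1 ∧ IsPM t.2.1 ∧ IsPM t.2.2 ∧ Rel p (combA a t.1) (combB b t.2.1) ∧
      Rel q t.2.1 t.2.2 ∧ Rel 2 t.1 (Equiv.sumCongr c t.2.2)}

/-- `U ⊆ P` is closed under `b_P` and `U ∩ P₁` under `a_d` -/
def PClosed (a : Perm P₁) (b : Perm (P₁ ⊕ P₂)) (U : Finset (P₁ ⊕ P₂)) : Prop :=
  (∀ x ∈ U, b x ∈ U) ∧ ∀ y, Sum.inl y ∈ U → Sum.inl (a y) ∈ U

open Classical in
/-- the exponent `e(U)` -/
noncomputable def eP (p : ℕ) (c : Perm P₂) (U : Finset (P₁ ⊕ P₂)) : ℝ :=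
  (U.card : ℝ) / (2 * p) - ((U.filter fun x => x.isRight = true).card : ℝ) / 2 +
    ((U.filter fun x => ∃ y, x = Sum.inr y ∧ Sum.inr (c y) ∈ U).card : ℝ) / 4

end Plant

/-! ## Section 7: planted types -/

/-- A planted type on the finite set `Y` of flags: `S` is the set of flags of the planted faces,
`a` is planted on `S`, `b` and `c` on all of `Y`. -/
structure PType (p q : ℕ) (Y : Type) where
  S : Finset Y
  a : Perm Y
  b : Perm Y
  c : Perm Y
  a_inv : ∀ x, a (a x) = x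
  a_supp : ∀ x, a x ≠ x ↔ x ∈ S
  pb : IsPM b
  pc : IsPM c
  bS : ∀ x ∈ S, b x ∈ S
  ab : ∀ x ∈ S, Function.minimalPeriod (⇑(a * b)) x = p
  bc : Rel q b c
  ac_in : ∀ x ∈ S, c x ∈ S → c (a x) = a (c x)
  ac_out : ∀ x ∈ S, c x ∉ S → c (a x) ∉ S
  ac_ne : ∀ x ∈ S, c x ∈ S → a x ≠ c x

namespace PType

variable {p q : ℕ} {Y : Type}

/-- `U` is a set of planted flags outside `S`, closed under `b`, and closed under the forced
`a`-matching `c a c` on the flags `y` with `c y ∈ S`. -/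
def Closed (τ : PType p q Y) (U : Finset Y) : Prop :=
  (∀ x ∈ U, x ∉ τ.S) ∧ (∀ x ∈ U, τ.b x ∈ U) ∧ ∀ x ∈ U, τ.c x ∈ τ.S → τ.c (τ.a (τ.c x)) ∈ U

open Classical in
/-- the exponent `e(U)` -/
noncomputable def e (τ : PType p q Y) (U : Finset Y) : ℝ :=
  (U.card : ℝ) / (2 * p) - ((U.filter fun x => τ.c x ∉ τ.S).card : ℝ) / 2 +
    ((U.filter fun x => τ.c x ∉ τ.S ∧ τ.c x ∈ U).card : ℝ) / 4

def HullWeak (τ : PType p q Y) : Prop := ∀ U, τ.Closed U → τ.e U ≤ 0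

def HullStrict (τ : PType p q Y) : Prop := ∀ U : Finset Y, U.Nonempty → τ.Closed U → τ.e U < 0

open Classical in
/-- `|∂S|` -/
noncomputable def bdCard (τ : PType p q Y) : ℕ := (τ.S.filter fun x => τ.c x ∉ τ.S).card

/-- the Euler characteristic of the closed planted complex -/
noncomputable def chi [Fintype Y] (τ : PType p q Y) : ℝ :=
  (τ.S.card : ℝ) / (2 * p) + (Fintype.card Y : ℝ) / (2 * q) - (τ.S.card : ℝ) / 4 -
    (τ.bdCard : ℝ) / 4

/-- planted copies of `τ` in the map `M` on `Ω` -/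
def Emb {Ω : Type} (τ : PType p q Y) (M : Trip Ω) : Type :=
  {ι : Y ↪ Ω // (∀ x, ι (τ.b x) = M.2.1 (ι x)) ∧ (∀ x, ι (τ.c x) = M.2.2 (ι x)) ∧
    ∀ x ∈ τ.S, ι (τ.a x) = M.1 (ι x)}

end PType

/-! ## Section 5: face sets in an action of the triangle group -/

section FaceSets

variable {p q : ℕ} {X : Type}

/-- closed under `a` and `b` -/
def FaceSet (ρ : Tri p q →* Perm X) (S : Finset X) : Prop :=
  ∀ x ∈ S, ρ (gen p q 0) x ∈ S ∧ ρ (gen p q 1) x ∈ S

open Classical in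
/-- `∂S = {x ∈ S : c x ∉ S}` -/
noncomputable def bd (ρ : Tri p q →* Perm X) (S : Finset X) : Finset X :=
  S.filter fun x => ρ (gen p q 2) x ∉ S

open Classical in
/-- `S_c = {x ∈ S : c x ∈ S}` -/
noncomputable def Sc (ρ : Tri p q →* Perm X) (S : Finset X) : Finset X :=
  S.filter fun x => ρ (gen p q 2) x ∈ S

open Classical in
/-- `S_v`: the flags of `S` all of whose vertex is in `S` -/
noncomputable def Sv (ρ : Tri p q →* Perm X) (S : Finset X) : Finset X :=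
  S.filter fun x => ∀ g ∈ vSub p q, ρ g x ∈ S

/-- Euler characteristic of the interior -/
noncomputable def chiInt (ρ : Tri p q →* Perm X) (S : Finset X) : ℝ :=
  (S.card : ℝ) / (2 * p) - ((Sc ρ S).card : ℝ) / 4 + ((Sv ρ S).card : ℝ) / (2 * q)

/-- the vertex closure `Shat`: union of the `⟨b,c⟩`-orbits meeting `S` -/
def hat (ρ : Tri p q →* Perm X) (S : Finset X) : Set X :=
  {x | ∃ g ∈ vSub p q, ρ g x ∈ S}

/-- Euler characteristic of the closed complex `F - (E_int + n) + |Shat| / 2q` -/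
noncomputable def chiBar (ρ : Tri p q →* Perm X) (S : Finset X) : ℝ :=
  (S.card : ℝ) / (2 * p) - ((Sc ρ S).card : ℝ) / 4 - ((bd ρ S).card : ℝ) / 2 +
    (Nat.card (hat ρ S) : ℝ) / (2 * q)

/-- `U ⊆ P = Shat \ S`, closed under `b`, and under `a` on the flags `y` with `c y ∈ S` -/
def PUClosed (ρ : Tri p q →* Perm X) (S U : Finset X) : Prop :=
  (∀ x ∈ U, x ∈ hat ρ S ∧ x ∉ S) ∧ (∀ x ∈ U, ρ (gen p q 1) x ∈ U) ∧
    ∀ x ∈ U, ρ (gen p q 2) x ∈ S → ρ (gen p q 0) x ∈ U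

open Classical in
/-- the exponent `e(U)` of section 6 -/
noncomputable def eU (ρ : Tri p q →* Perm X) (S U : Finset X) : ℝ :=
  (U.card : ℝ) / (2 * p) - ((U.filter fun x => ρ (gen p q 2) x ∉ S).card : ℝ) / 2 +
    ((U.filter fun x => ρ (gen p q 2) x ∉ S ∧ ρ (gen p q 2) x ∈ U).card : ℝ) / 4

/-- steps `a`, `b`, and `c` inside `S` -/
def SStep (ρ : Tri p q →* Perm X) (S : Finset X) (x y : X) : Prop :=
  x ∈ S ∧ y ∈ S ∧ (y = ρ (gen p q 0) x ∨ y = ρ (gen p q 1) x ∨ y = ρ (gen p q 2) x)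

/-- `x` and `y` are in the same component of `S` -/
def SConn (ρ : Tri p q →* Perm X) (S : Finset X) (x y : X) : Prop :=
  Relation.ReflTransGen (SStep ρ S) x y

/-- the word `w` (applied from the right: `[s₁,…,s_k]` acts as `s₁ ⋯ s_k`) stays in `S`
when started at `x` -/
def StaysIn (ρ : Tri p q →* Perm X) (S : Finset X) (x : X) : List (Fin 3) → Prop
  | [] => x ∈ S
  | s :: w => StaysIn ρ S x w ∧ ρ ((s :: w).map (gen p q)).prod x ∈ S

/-- `π(S,x)`: the elements represented by words staying in `S` from `x` to `x` -/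
def piSet (ρ : Tri p q →* Perm X) (S : Finset X) (x : X) : Set (Tri p q) :=
  {g | ∃ w : List (Fin 3), StaysIn ρ S x w ∧ (w.map (gen p q)).prod = g ∧ ρ g x = x}

/-- all elements of `T` lie in one cyclic subgroup -/
def InCyclic {G : Type} [Group G] (T : Set G) : Prop :=
  ∃ g : G, ∀ h ∈ T, h ∈ Subgroup.zpowers g

/-- elements of length at most `R` fixing `x` -/
def locStab (ρ : Tri p q →* Perm X) (R : ℕ) (x : X) : Set (Tri p q) :=
  {g | g ∈ ballT p q R ∧ ρ g x = x}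

/-- the action of the triangle group on the left cosets of `Γ` -/
def cosetHom (Γ : Subgroup (Tri p q)) : Tri p q →* Perm (Tri p q ⧸ Γ) :=
  MulAction.toPermHom (Tri p q) (Tri p q ⧸ Γ)

/-- the action of the triangle group on itself -/
def selfHom (p q : ℕ) : Tri p q →* Perm (Tri p q) :=
  MulAction.toPermHom (Tri p q) (Tri p q)

end FaceSets

end MPbcd198
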